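import Pool.Agent.DPV.Core

set_option autoImplicit false
open Filter Topology

namespace Pool.Agent.Results.MP_b82e9e_an.PointwiseFailure

/-- The value of the evaluation `θ` (`θ t` is the weight of the stage `t + 1`) at the initial state
`z`: the supremum of `∑ θ_t r(z_(t+1))` over the plays `z_0 = z`, `z_(t+1) ∈ F (z_t)`. -/
noncomputable def value {Z : Type} (F : Z → Set Z) (r : Z → ℝ) (θ : ℕ → ℝ) (z : Z) : ℝ :=
  sSup {x : ℝ | ∃ s : ℕ → Z, s 0 = z ∧ (∀ t, s (t + 1) ∈ F (s t)) ∧ x = ∑' t, θ t * r (s (t + 1))}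

/-- An evaluation: nonnegative weights with sum `1`. -/
def IsEvaluation (θ : ℕ → ℝ) : Prop := (∀ t, 0 ≤ θ t) ∧ HasSum θ 1

/-- The total variation `∑ |θ_(t+1) - θ_t|`. -/
noncomputable def totalVar (θ : ℕ → ℝ) : ℝ := ∑' t, |θ (t + 1) - θ t|

/-- The Cesàro evaluation of length `n + 1`. -/
noncomputable def cesaro (n : ℕ) (t : ℕ) : ℝ := if t < n + 1 then 1 / ((n : ℝ) + 1) else 0

/-- The logarithmic evaluation of length `N`: weight `1 / (H_N t)` at the stages `t = 1, ..., N`,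
`H_N = 1 + 1/2 + ... + 1/N`. -/
noncomputable def logarithmic (N : ℕ) (t : ℕ) : ℝ :=
  if t < N then 1 / ((t : ℝ) + 1) / (∑ i ∈ Finset.range N, 1 / ((i : ℝ) + 1)) else 0

/-- There are a dynamic programming problem and a state `z₀` such that the Cesàro values converge
uniformly, with limit `1` at `z₀`, but the values at `z₀` of the decreasing evaluations
`logarithmic (2 ^ (k+1)^4)`, whose total variation tends to `0`, are at most `8 / (k + 1)`; and
there are decreasing evaluations `θ k`, with total variation tending to `0`, for which the values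
diverge at the single state `z₀`. -/
theorem result : ∃ (Z : Type) (F : Z → Set Z) (r : Z → ℝ) (z₀ : Z),
    (∀ z, (F z).Nonempty) ∧ (∀ z, 0 ≤ r z ∧ r z ≤ 1) ∧
    (∃ w : Z → ℝ, w z₀ = 1 ∧
      TendstoUniformly (fun (n : ℕ) (z : Z) => value F r (cesaro n) z) w atTop) ∧
    (∀ k : ℕ, IsEvaluation (logarithmic (2 ^ (k + 1) ^ 4)) ∧
      Antitone (logarithmic (2 ^ (k + 1) ^ 4)) ∧
      0 ≤ value F r (logarithmic (2 ^ (k + 1) ^ 4)) z₀ ∧
      value F r (logarithmic (2 ^ (k + 1) ^ 4)) z₀ ≤ 8 / ((k : ℝ) + 1)) ∧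
    Tendsto (fun k : ℕ => totalVar (logarithmic (2 ^ (k + 1) ^ 4))) atTop (𝓝 0) ∧
    ∃ θ : ℕ → ℕ → ℝ, (∀ k, IsEvaluation (θ k) ∧ Antitone (θ k)) ∧
      Tendsto (fun k => totalVar (θ k)) atTop (𝓝 0) ∧
      ¬ ∃ y : ℝ, Tendsto (fun k => value F r (θ k) z₀) atTop (𝓝 y) := by
  have hlog : ∀ k : ℕ, logarithmic (2 ^ (k + 1) ^ 4) = DPV.th k := by
    intro k
    funext t
    unfold logarithmic DPV.th DPV.H DPV.a
    rw [← pow_mul]
  have hval : ∀ θ z, value DPV.F DPV.r θ z = DPV.val θ z := fun θ z => rfl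
  refine ⟨DPV.ZZ, DPV.F, DPV.r, DPV.z0, fun z => ⟨(z.1, z.2.1, z.2.2 + 1), Or.inl rfl⟩,
    fun z => ⟨DPV.r_nonneg z, (DPV.r_le z).trans (DPV.kap_le_one _)⟩,
    ⟨fun z => DPV.kap z.1, DPV.kap_z0, DPV.ces_uniform⟩, fun k => ?_, ?_,
    DPV.Th, fun k => ⟨⟨DPV.Th_nonneg k, DPV.Th_hasSum k⟩, DPV.Th_anti k⟩, DPV.Th_tv_tendsto,
    DPV.Th_diverges⟩
  · rw [hlog, hval]
    exact ⟨⟨DPV.th_nonneg k, DPV.th_hasSum k⟩, DPV.th_anti k, DPV.th_val_nonneg k,
      DPV.th_val_le k⟩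
  · refine DPV.th_tv_tendsto.congr (fun k => ?_)
    rw [hlog]
    rfl

end Pool.Agent.Results.MP_b82e9e_an.PointwiseFailure
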